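import Pool.Agent.RT16.Defs

/-!
# RT16/Minor: the minor lemma

Proof (note 3571 (1)). Let `B u = {v u} ∪ ⋃ {C u x ∩ C u y | x ≠ y neighbours of u}`, connected by `conn_iUnion` (all these sets
contain `v u`). CLAIM 1: `B u`, `B w` are disjoint for `u ≠ w`: if `z ∈ C u x ∩ C u y ∩ C w s ∩ C w t` (`x ≠ y`, `s ≠ t`), by `sep` each
of `{u,x}`, `{u,y}` meets each of `{w,s}`, `{w,t}`; if `u ∉ {s,t}` then `x = w = y`, impossible; so say `u = s`; then `{u,x}` and
`{u,y}` meet `{w,t}`, `u ≠ w`, `u ≠ t`, so `{x,y} = {w,t}`: `u w t` is a triangle of `H` and `z` is in its three sets, against `tri`.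
`v u ∈ C w s ∩ C w t` is impossible by `notMem` (one of `s`, `t` is not `u`), `v` is injective. CLAIM 2 (same count): `C u x ∩ B w = ∅` for an
edge `u x` and `w ∉ {u,x}`. For each edge `u x` with `u < x` in some linear order of `U` (`WellOrderingRel`) let `E u x` be connected,
`v u ∈ E u x ⊆ C u x \ B x`, touching `C u x ∩ B x` (`exists_prefix`: `v u ∉ B x`, `v x ∈ C u x ∩ B x`). `B' u = B u ∪ ⋃ E u x`. Disjoint:
`E u x ∩ B w = ∅` for `w ≠ u` (claim 2, choice). `z ∈ E u x ∩ E w s`, `u ≠ w`: the edges are different (`u < x`, `w < s`) and meet in exactly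
one `r`, so `z ∈ B r` (two different neighbours of `r`); `E u x ∩ B r = ∅` unless `r = u`, `E w s ∩ B r = ∅` unless `r = w`: contradiction.
HR54/Core contains the same argument with other data (may be copied).
-/

set_option autoImplicit false

namespace Pool.Agent.RT16

open Pool.Agent.HR54

variable {V U : Type} {G : SimpleGraph V} {H : SimpleGraph U} {v : U → V} {C : U → U → Set V}

theorem Minor_mem' (h : Web G H v C) (x y : U) : v y ∈ C x y := by
  rw [h.symm x y]
  exact h.mem y x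

theorem Minor_meet (h : Web G H v C) {x y z w : U} (h1 : H.Adj x y) (h2 : H.Adj z w) {q : V}
    (hq : q ∈ C x y) (hq' : q ∈ C z w) : x = z ∨ x = w ∨ y = z ∨ y = w := by
  by_contra hc
  push Not at hc
  obtain ⟨c1, c2, c3, c4⟩ := hc
  exact Set.disjoint_left.1 (h.sep x y z w h1 h2 c1 c2 c3 c4) hq hq'

/-- the sets `B u` -/
def MinorB (H : SimpleGraph U) (v : U → V) (C : U → U → Set V) (u : U) : Set V :=
  {q | q = v u ∨ ∃ x y, H.Adj u x ∧ H.Adj u y ∧ x ≠ y ∧ q ∈ C u x ∧ q ∈ C u y}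

/-- a point which is in the three sets of a triangle -/
theorem Minor_tri (h : Web G H v C) {x y z : U} (h1 : H.Adj x y) (h2 : H.Adj x z)
    (h3 : H.Adj y z) {q : V} (q1 : q ∈ C x y) (q2 : q ∈ C x z) (q3 : q ∈ C y z) : False := by
  have h4 := h.tri x y z h1 h2 h3
  exact Set.eq_empty_iff_forall_notMem.1 h4 q ⟨⟨q1, q2⟩, q3⟩

theorem Minor_notB (h : Web G H v C) {u w : U} (huw : u ≠ w) : v u ∉ MinorB H v C w := by
  rintro (hy | ⟨s, t, hs, ht, hst, q1, q2⟩)
  · exact huw (h.inj hy)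
  · by_cases hus : u = s
    · exact h.notMem w t u ht huw (fun hut => hst (hus.symm.trans hut)) q2
    · exact h.notMem w s u hs huw hus q1

theorem Minor_disj (h : Web G H v C) {u w : U} (huw : u ≠ w) {q : V} (hx : q ∈ MinorB H v C u) :
    q ∉ MinorB H v C w := by
  intro hy
  rcases hx with rfl | ⟨x, y, hux, huy, hxy, q1, q2⟩
  · exact Minor_notB h huw hy
  · rcases hy with rfl | ⟨s, t, hws, hwt, hst, q3, q4⟩
    · exact Minor_notB h huw.symm (Or.inr ⟨x, y, hux, huy, hxy, q1, q2⟩)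
    · have e1 := Minor_meet h hux hws q1 q3
      have e2 := Minor_meet h hux hwt q1 q4
      have e3 := Minor_meet h huy hws q2 q3
      have e4 := Minor_meet h huy hwt q2 q4
      have hux' := hux.ne
      have huy' := huy.ne
      have hws' := hws.ne
      have hwt' := hwt.ne
      have e5 : (u = s ∧ ((x = w ∧ y = t) ∨ (x = t ∧ y = w))) ∨
          (u = t ∧ ((x = w ∧ y = s) ∨ (x = s ∧ y = w))) := by
        grind
      rcases e5 with ⟨rfl, ⟨rfl, rfl⟩ | ⟨rfl, rfl⟩⟩ | ⟨rfl, ⟨rfl, rfl⟩ | ⟨rfl, rfl⟩⟩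
      · exact Minor_tri h hux huy hwt q1 q2 q4
      · exact Minor_tri h huy hux hwt q2 q1 q4
      · exact Minor_tri h hux huy hws q1 q2 q3
      · exact Minor_tri h huy hux hws q2 q1 q3

theorem Minor_edge (h : Web G H v C) {u x w : U} (hux : H.Adj u x) (hwu : w ≠ u) (hwx : w ≠ x)
    {q : V} (hq : q ∈ C u x) : q ∉ MinorB H v C w := by
  rintro (rfl | ⟨s, t, hws, hwt, hst, q3, q4⟩)
  · exact h.notMem u x w hux hwu hwx hq
  · have e1 := Minor_meet h hux hws hq q3
    have e2 := Minor_meet h hux hwt hq q4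
    have e5 : (u = s ∧ x = t) ∨ (u = t ∧ x = s) := by grind
    rcases e5 with ⟨rfl, rfl⟩ | ⟨rfl, rfl⟩
    · refine Minor_tri h hux hws.symm hwt.symm hq ?_ ?_
      · rw [h.symm u w]
        exact q3
      · rw [h.symm x w]
        exact q4
    · refine Minor_tri h hux hwt.symm hws.symm hq ?_ ?_
      · rw [h.symm u w]
        exact q4
      · rw [h.symm x w]
        exact q3

theorem minor_of_web {V U : Type} {G : SimpleGraph V} {H : SimpleGraph U} {v : U → V}
    {C : U → U → Set V} (h : Web G H v C) : ∃ B : U → Set V,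
      (∀ u, (G.induce (B u)).Connected) ∧ (∀ u w, u ≠ w → Disjoint (B u) (B w)) ∧
      ∀ u w, H.Adj u w → Touch G (B u) (B w) := by
  classical
  letI : LinearOrder U := IsWellOrder.linearOrder WellOrderingRel
  -- the links
  have hE : ∀ u x, ∃ E : Set V, H.Adj u x → v u ∈ E ∧ E ⊆ C u x \ MinorB H v C x ∧
      (G.induce E).Connected ∧ Touch G E (C u x ∩ MinorB H v C x) := by
    intro u x
    by_cases hux : H.Adj u x
    · obtain ⟨E, h1, h2, h3, h4⟩ := exists_prefix (h.conn u x) (h.mem u x)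
        (Minor_notB h hux.ne) ⟨v x, Minor_mem' h u x, Or.inl rfl⟩
      exact ⟨E, fun _ => ⟨h1, h2, h3, h4⟩⟩
    · exact ⟨∅, fun h1 => absurd h1 hux⟩
  choose E hE using hE
  -- the branch sets
  obtain ⟨F, hF⟩ : ∃ F : U → Set V, F = fun u => {v u} ∪ ⋃ s : {q : U × U // H.Adj u q.1 ∧
      H.Adj u q.2 ∧ q.1 ≠ q.2} ⊕ {x : U // u < x ∧ H.Adj u x},
      Sum.elim (fun q => C u q.1.1 ∩ C u q.1.2) (fun x => E u x.1) s := ⟨_, rfl⟩
  have hmem : ∀ u q, q ∈ F u ↔ q ∈ MinorB H v C u ∨ ∃ x, u < x ∧ H.Adj u x ∧ q ∈ E u x := by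
    intro u q
    rw [hF]
    constructor
    · rintro (hx | hx)
      · exact Or.inl (Or.inl hx)
      · obtain ⟨s, hs⟩ := Set.mem_iUnion.1 hx
        rcases s with ⟨⟨x, y⟩, hux, huy, hxy⟩ | ⟨x, hx, hux⟩
        · exact Or.inl (Or.inr ⟨x, y, hux, huy, hxy, hs.1, hs.2⟩)
        · exact Or.inr ⟨x, hx, hux, hs⟩
    · rintro ((hx | ⟨x, y, hux, huy, hxy, q1, q2⟩) | ⟨x, hx, hux, hq⟩)
      · exact Or.inl hx
      · exact Or.inr (Set.mem_iUnion.2 ⟨Sum.inl ⟨(x, y), hux, huy, hxy⟩, ⟨q1, q2⟩⟩)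
      · exact Or.inr (Set.mem_iUnion.2 ⟨Sum.inr ⟨x, hx, hux⟩, hq⟩)
  refine ⟨F, ?_, ?_, ?_⟩
  · intro u
    rw [hF]
    refine conn_iUnion (v u) _ ?_ ?_
    · rintro (⟨⟨x, y⟩, hux, huy, hxy⟩ | ⟨x, hx, hux⟩)
      · exact (SimpleGraph.connected_iff _).2 ⟨h.conn₂ u x y, ⟨⟨v u, h.mem u x, h.mem u y⟩⟩⟩
      · exact (hE u x hux).2.2.1
    · rintro (⟨⟨x, y⟩, hux, huy, hxy⟩ | ⟨x, hx, hux⟩)
      · exact ⟨h.mem u x, h.mem u y⟩
      · exact (hE u x hux).1
  · -- disjointness
    have hEB : ∀ u x w q, H.Adj u x → w ≠ u → q ∈ E u x → q ∉ MinorB H v C w := by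
      intro u x w q hux hwu hq
      by_cases hwx : w = x
      · subst hwx
        exact ((hE u w hux).2.1 hq).2
      · exact Minor_edge h hux hwu hwx ((hE u x hux).2.1 hq).1
    intro u w huw
    rw [Set.disjoint_left]
    intro q hx hy
    rcases (hmem u q).1 hx with hx | ⟨x, hux, hux', hx⟩
    · rcases (hmem w q).1 hy with hy | ⟨s, hws, hws', hy⟩
      · exact Minor_disj h huw hx hy
      · exact hEB w s u q hws' huw hy hx
    · rcases (hmem w q).1 hy with hy | ⟨s, hws, hws', hy⟩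
      · exact hEB u x w q hux' huw.symm hx hy
      · have x1 := (hE u x hux').2.1 hx
        have x2 := (hE w s hws').2.1 hy
        rcases Minor_meet h hux' hws' x1.1 x2.1 with e | e | e | e
        · exact huw e
        · -- u = s
          subst e
          refine x2.2 (Or.inr ⟨x, w, hux', hws'.symm, (hws.trans hux).ne', x1.1, ?_⟩)
          rw [h.symm u w]
          exact x2.1
        · -- x = w
          subst e
          refine x1.2 (Or.inr ⟨u, s, hux'.symm, hws', (hux.trans hws).ne, ?_, x2.1⟩)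
          rw [h.symm x u]
          exact x1.1
        · -- x = s
          subst e
          refine x1.2 (Or.inr ⟨u, w, hux'.symm, hws'.symm, huw, ?_, ?_⟩)
          · rw [h.symm x u]
            exact x1.1
          · rw [h.symm x w]
            exact x2.1
  · -- adjacency
    have key : ∀ u w, u < w → H.Adj u w → Touch G (F u) (F w) := by
      intro u w huw hadj
      refine (hE u w hadj).2.2.2.mono (fun q hq => ?_) (fun q hq => ?_)
      · exact (hmem u q).2 (Or.inr ⟨w, huw, hadj, hq⟩)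
      · exact (hmem w q).2 (Or.inl hq.2)
    intro u w hadj
    rcases lt_or_gt_of_ne hadj.ne with h1 | h1
    · exact key u w h1 hadj
    · exact (key w u h1 hadj.symm).symm

end Pool.Agent.RT16
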