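import Pool.Agent.RT16.Defs

/-!
# RT16/Pair: contraction of a matching

Branch sets `B (f i) ∪ B (g i)` (`conn_union`). If `h` is smaller than the number of indices, restrict to an injection
`Fin h → ι`.
-/

set_option autoImplicit false

namespace Pool.Agent.RT16

open Pool.Agent.HR54

theorem clique_of_pairs {V U ι : Type} [Fintype ι] {G : SimpleGraph V} {H : SimpleGraph U}
    {B : U → Set V} (hc : ∀ u, (G.induce (B u)).Connected)
    (hd : ∀ u w, u ≠ w → Disjoint (B u) (B w)) (ht : ∀ u w, H.Adj u w → Touch G (B u) (B w))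
    (f g : ι → U) (h1 : ∀ i, f i = g i ∨ H.Adj (f i) (g i))
    (h2 : ∀ i j, i ≠ j → f i ≠ f j ∧ g i ≠ g j ∧ f i ≠ g j)
    (h3 : ∀ i j, i ≠ j → H.Adj (f i) (f j) ∨ H.Adj (f i) (g j) ∨ H.Adj (f j) (g i))
    {h : ℕ} (hh : h ≤ Fintype.card ι) : CliqueMinor G h := by
  have hcard : Fintype.card (Fin h) ≤ Fintype.card ι := by
    rw [Fintype.card_fin]
    exact hh
  obtain ⟨e⟩ := Function.Embedding.nonempty_of_card_le hcard
  refine ⟨fun i => B (f (e i)) ∪ B (g (e i)), ?_, ?_, ?_⟩
  · intro i
    change (G.induce (B (f (e i)) ∪ B (g (e i)))).Connected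
    rcases h1 (e i) with h | h
    · rw [← h, Set.union_self]
      exact hc _
    · exact conn_union (hc _) (hc _) (ht _ _ h)
  · intro i j hij
    have hne : e i ≠ e j := fun h' => hij (e.injective h')
    obtain ⟨a1, a2, a3⟩ := h2 _ _ hne
    obtain ⟨-, -, b3⟩ := h2 _ _ hne.symm
    change Disjoint (B (f (e i)) ∪ B (g (e i))) (B (f (e j)) ∪ B (g (e j)))
    rw [Set.disjoint_union_left, Set.disjoint_union_right, Set.disjoint_union_right]
    exact ⟨⟨hd _ _ a1, hd _ _ a3⟩, hd _ _ b3.symm, hd _ _ a2⟩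
  · intro i j hij
    have hne : e i ≠ e j := fun h' => hij (e.injective h')
    change Touch G (B (f (e i)) ∪ B (g (e i))) (B (f (e j)) ∪ B (g (e j)))
    rcases h3 _ _ hne with h | h | h
    · exact (ht _ _ h).mono Set.subset_union_left Set.subset_union_left
    · exact (ht _ _ h).mono Set.subset_union_left Set.subset_union_right
    · exact (ht _ _ h).symm.mono Set.subset_union_right Set.subset_union_left

end Pool.Agent.RT16
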