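import Pool.Agent.RT16.Defs

/-!
# RT16/Card: the number of free points

The covered points are the image of the injection `(Fin m × Fin 3) ⊕ (Fin n × Fin 5) → Fin p`.
-/

set_option autoImplicit false

namespace Pool.Agent.RT16

theorem card_free {p : ℕ} {D : Fin p → Fin p → Fin p → Prop} {m n : ℕ} (c : Conf p D m n) :
    Nat.card {x : Fin p // c.Free x} + 3 * m + 5 * n = p := by
  classical
  let φ : (Fin m × Fin 3) ⊕ (Fin n × Fin 5) → Fin p :=
    Sum.elim (fun q => c.A q.1 q.2) (fun q => c.B q.1 q.2)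
  have hφ : Function.Injective φ := by
    rintro (⟨i, k⟩ | ⟨i, k⟩) (⟨i', k'⟩ | ⟨i', k'⟩) h
    · obtain ⟨h1, h2⟩ := c.injA i k i' k' h
      rw [h1, h2]
    · exact absurd h (c.injAB i k i' k')
    · exact absurd h.symm (c.injAB i' k' i k)
    · obtain ⟨h1, h2⟩ := c.injB i k i' k' h
      rw [h1, h2]
  have hS : ((Finset.univ : Finset ((Fin m × Fin 3) ⊕ (Fin n × Fin 5))).image φ).card =
      3 * m + 5 * n := by
    rw [Finset.card_image_of_injective _ hφ, Finset.card_univ]
    simp [Fintype.card_sum, Fintype.card_prod, Nat.mul_comm]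
  have hF : ∀ x : Fin p, c.Free x ↔
      x ∉ (Finset.univ : Finset ((Fin m × Fin 3) ⊕ (Fin n × Fin 5))).image φ := by
    intro x
    constructor
    · intro hx hm
      obtain ⟨q, -, hq⟩ := Finset.mem_image.1 hm
      rcases q with ⟨i, k⟩ | ⟨i, k⟩
      · exact hx.1 i k hq
      · exact hx.2 i k hq
    · intro hx
      refine ⟨fun i k h => hx ?_, fun i k h => hx ?_⟩
      · exact Finset.mem_image.2 ⟨Sum.inl (i, k), Finset.mem_univ _, h⟩
      · exact Finset.mem_image.2 ⟨Sum.inr (i, k), Finset.mem_univ _, h⟩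
  have h1 : Nat.card {x : Fin p // c.Free x} =
      (((Finset.univ : Finset ((Fin m × Fin 3) ⊕ (Fin n × Fin 5))).image φ)ᶜ).card := by
    rw [Nat.card_eq_fintype_card]
    refine Fintype.card_of_subtype _ fun x => ?_
    rw [Finset.mem_compl, hF x]
  have h2 := Finset.card_compl_add_card
    ((Finset.univ : Finset ((Fin m × Fin 3) ⊕ (Fin n × Fin 5))).image φ)
  rw [hS, Fintype.card_fin] at h2
  rw [h1]
  omega

end Pool.Agent.RT16
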