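import Pool.Agent.HR54.Hull

/-!
# RT16/Defs (MP_93e89b_co): Radon failure and clique minors, definitions of the proof

Paper proof: note 3571. `Fam`: the points `a` refute `(R_p)`. `Web`: the data of the minor lemma. `USys`: units.
`Conf`: disjoint units of type A (a dirty triple) and B (two dirty triples `0 1 2`, `0 3 4` with one common point).
-/

set_option autoImplicit false

namespace Pool.Agent.RT16

open Pool.Agent.HR54

/-- The points `a i` refute the Radon property: disjoint sets of indices have disjoint hulls. -/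
structure Fam {V : Type} (G : SimpleGraph V) {p : ℕ} (𝒞 : Set (Set V)) (a : Fin p → V) : Prop where
  conv : IsConvexity G 𝒞
  disj : ∀ S T : Set (Fin p), Disjoint S T → Disjoint (hull 𝒞 (a '' S)) (hull 𝒞 (a '' T))

/-- The data of the minor lemma. -/
structure Web {V U : Type} (G : SimpleGraph V) (H : SimpleGraph U) (v : U → V)
    (C : U → U → Set V) : Prop where
  symm : ∀ x y, C x y = C y x
  mem : ∀ x y, v x ∈ C x y
  conn : ∀ x y, (G.induce (C x y)).Preconnected
  conn₂ : ∀ x y z, (G.induce (C x y ∩ C x z)).Preconnected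
  sep : ∀ x y z w, H.Adj x y → H.Adj z w → x ≠ z → x ≠ w → y ≠ z → y ≠ w →
    Disjoint (C x y) (C z w)
  notMem : ∀ x y z, H.Adj x y → z ≠ x → z ≠ y → v z ∉ C x y
  tri : ∀ x y z, H.Adj x y → H.Adj x z → H.Adj y z → C x y ∩ C x z ∩ C y z = ∅
  inj : Function.Injective v

/-- Index vertices `v u` in units `lab u`; the unit `l` has the set of points `supp l`. -/
structure USys {V U L : Type} {p : ℕ} (𝒞 : Set (Set V)) (a : Fin p → V) (lab : U → L)
    (supp : L → Set (Fin p)) (v : U → V) : Prop where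
  disj : ∀ l l', l ≠ l' → Disjoint (supp l) (supp l')
  own : ∀ u, v u ∈ hull 𝒞 (a '' supp (lab u))
  sep : ∀ u w, u ≠ w → lab u = lab w → ∃ S T : Set (Fin p), S ⊆ supp (lab u) ∧
    T ⊆ supp (lab u) ∧ Disjoint S T ∧ v u ∈ hull 𝒞 (a '' S) ∧ v w ∈ hull 𝒞 (a '' T)

/-- Dirty triples of points. -/
def Dirty {V : Type} {p : ℕ} (𝒞 : Set (Set V)) (a : Fin p → V) (x y z : Fin p) : Prop :=
  x ≠ y ∧ x ≠ z ∧ y ≠ z ∧
    (hull 𝒞 {a x, a y} ∩ hull 𝒞 {a x, a z} ∩ hull 𝒞 {a y, a z}).Nonempty

/-- `m` units of type A and `n` units of type B, all points different. -/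
structure Conf (p : ℕ) (D : Fin p → Fin p → Fin p → Prop) (m n : ℕ) where
  A : Fin m → Fin 3 → Fin p
  B : Fin n → Fin 5 → Fin p
  injA : ∀ i k i' k', A i k = A i' k' → i = i' ∧ k = k'
  injB : ∀ i k i' k', B i k = B i' k' → i = i' ∧ k = k'
  injAB : ∀ i k i' k', A i k ≠ B i' k'
  dA : ∀ i, D (A i 0) (A i 1) (A i 2)
  dB₁ : ∀ i, D (B i 0) (B i 1) (B i 2)
  dB₂ : ∀ i, D (B i 0) (B i 3) (B i 4)

variable {p : ℕ} {D : Fin p → Fin p → Fin p → Prop} {m n : ℕ}

/-- The points outside the units. -/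
def Conf.Free (c : Conf p D m n) (x : Fin p) : Prop :=
  (∀ i k, c.A i k ≠ x) ∧ ∀ i k, c.B i k ≠ x

/-- The index vertices: free points; the three points and the hub of an A unit; the five points and
the two hubs of a B unit. -/
abbrev Conf.Idx (c : Conf p D m n) : Type :=
  {x : Fin p // c.Free x} ⊕ (Fin m × Fin 4) ⊕ (Fin n × Fin 7)

/-- The unit of an index vertex. -/
def Conf.lab (c : Conf p D m n) : c.Idx → {x : Fin p // c.Free x} ⊕ Fin m ⊕ Fin n :=
  Sum.map id (Sum.map Prod.fst Prod.fst)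

/-- The points of a unit. -/
def Conf.supp (c : Conf p D m n) : {x : Fin p // c.Free x} ⊕ Fin m ⊕ Fin n → Set (Fin p)
  | Sum.inl x => {x.1}
  | Sum.inr (Sum.inl i) => Set.range (c.A i)
  | Sum.inr (Sum.inr i) => Set.range (c.B i)

end Pool.Agent.RT16
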