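import Pool.Agent.RT16.Defs

/-!
# RT16/Ext: an extremal configuration (pure combinatorics)

Take `m`, `n`, `c : Conf p D m n` with `2 * m + 3 * n` maximal (`3 * m + 5 * n ≤ p`, and `m = n = 0` exists). (1) A dirty triple of free
points: one more A unit, `+2`. (2) `D (c.A i k) y z` with `y`, `z` free: replace the A unit `i` by the B unit `c.A i k`; the two other points
of the unit; `y`, `z`: `+1`. (3) `D (c.B i k) y z`, `k ≠ 0`, `y`, `z` free: replace the B unit by two A units: `{B 0, B 3, B 4}` if `k ∈ {1, 2}`,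
`{B 0, B 1, B 2}` if `k ∈ {3, 4}`, and `{B k, y, z}`: `-3 + 4`. (An internal version with finsets of functions `Fin 3 → Fin p`,
`Fin 5 → Fin p` may be easier; convert at the end with `Finset.equivFin`.)
-/

set_option autoImplicit false

namespace Pool.Agent.RT16

section Ext75

variable {p : ℕ} {D : Fin p → Fin p → Fin p → Prop} {m n : ℕ}

/-- remove an A unit -/
def Conf.remA75 (c : Conf p D (m + 1) n) (i : Fin (m + 1)) : Conf p D m n where
  A := fun j => c.A (i.succAbove j)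
  B := c.B
  injA := fun i1 k1 i2 k2 h => by
    obtain ⟨h1, h2⟩ := c.injA _ _ _ _ h
    exact ⟨Fin.succAbove_right_injective h1, h2⟩
  injB := c.injB
  injAB := fun _ _ _ _ => c.injAB _ _ _ _
  dA := fun _ => c.dA _
  dB₁ := c.dB₁
  dB₂ := c.dB₂

/-- remove a B unit -/
def Conf.remB75 (c : Conf p D m (n + 1)) (i : Fin (n + 1)) : Conf p D m n where
  A := c.A
  B := fun j => c.B (i.succAbove j)
  injA := c.injA
  injB := fun i1 k1 i2 k2 h => by
    obtain ⟨h1, h2⟩ := c.injB _ _ _ _ h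
    exact ⟨Fin.succAbove_right_injective h1, h2⟩
  injAB := fun _ _ _ _ => c.injAB _ _ _ _
  dA := c.dA
  dB₁ := fun _ => c.dB₁ _
  dB₂ := fun _ => c.dB₂ _

/-- add an A unit -/
def Conf.addA75 (c : Conf p D m n) (f : Fin 3 → Fin p) (hf : Function.Injective f)
    (hF : ∀ k, c.Free (f k)) (hD : D (f 0) (f 1) (f 2)) : Conf p D (m + 1) n where
  A := Fin.cons f c.A
  B := c.B
  injA := by
    intro i k i' k' h
    induction i using Fin.cases with
    | zero =>
      induction i' using Fin.cases with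
      | zero => exact ⟨rfl, hf h⟩
      | succ i' => exact absurd (Eq.symm h) ((hF k).1 i' k')
    | succ i =>
      induction i' using Fin.cases with
      | zero => exact absurd h ((hF k').1 i k)
      | succ i' =>
        obtain ⟨h1, h2⟩ := c.injA i k i' k' h
        exact ⟨congrArg Fin.succ h1, h2⟩
  injB := c.injB
  injAB := by
    intro i k i' k' h
    induction i using Fin.cases with
    | zero => exact (hF k).2 i' k' (Eq.symm h)
    | succ i => exact c.injAB i k i' k' h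
  dA := by
    intro i
    induction i using Fin.cases with
    | zero => exact hD
    | succ i => exact c.dA i
  dB₁ := c.dB₁
  dB₂ := c.dB₂

/-- add a B unit -/
def Conf.addB75 (c : Conf p D m n) (f : Fin 5 → Fin p) (hf : Function.Injective f)
    (hF : ∀ k, c.Free (f k)) (hD : D (f 0) (f 1) (f 2)) (hD' : D (f 0) (f 3) (f 4)) :
    Conf p D m (n + 1) where
  A := c.A
  B := Fin.cons f c.B
  injA := c.injA
  injB := by
    intro i k i' k' h
    induction i using Fin.cases with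
    | zero =>
      induction i' using Fin.cases with
      | zero => exact ⟨rfl, hf h⟩
      | succ i' => exact absurd (Eq.symm h) ((hF k).2 i' k')
    | succ i =>
      induction i' using Fin.cases with
      | zero => exact absurd h ((hF k').2 i k)
      | succ i' =>
        obtain ⟨h1, h2⟩ := c.injB i k i' k' h
        exact ⟨congrArg Fin.succ h1, h2⟩
  injAB := by
    intro i k i' k' h
    induction i' using Fin.cases with
    | zero => exact (hF k').1 i k h
    | succ i' => exact c.injAB i k i' k' h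
  dA := c.dA
  dB₁ := by
    intro i
    induction i using Fin.cases with
    | zero => exact hD
    | succ i => exact c.dB₁ i
  dB₂ := by
    intro i
    induction i using Fin.cases with
    | zero => exact hD'
    | succ i => exact c.dB₂ i

theorem Conf.free_remA75 (c : Conf p D (m + 1) n) (i : Fin (m + 1)) {x : Fin p}
    (hx : c.Free x) : (c.remA75 i).Free x :=
  ⟨fun _ _ => hx.1 _ _, hx.2⟩

theorem Conf.free_remA75_self (c : Conf p D (m + 1) n) (i : Fin (m + 1)) (k : Fin 3) :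
    (c.remA75 i).Free (c.A i k) :=
  ⟨fun j _ h => Fin.succAbove_ne i j (c.injA _ _ _ _ h).1,
    fun _ _ h => c.injAB _ _ _ _ (Eq.symm h)⟩

theorem Conf.free_remB75 (c : Conf p D m (n + 1)) (i : Fin (n + 1)) {x : Fin p}
    (hx : c.Free x) : (c.remB75 i).Free x :=
  ⟨hx.1, fun _ _ => hx.2 _ _⟩

theorem Conf.free_remB75_self (c : Conf p D m (n + 1)) (i : Fin (n + 1)) (k : Fin 5) :
    (c.remB75 i).Free (c.B i k) :=
  ⟨fun _ _ h => c.injAB _ _ _ _ h,
    fun j _ h => Fin.succAbove_ne i j (c.injB _ _ _ _ h).1⟩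

theorem Conf.free_addA75 (c : Conf p D m n) (f : Fin 3 → Fin p) (hf : Function.Injective f)
    (hF : ∀ k, c.Free (f k)) (hD : D (f 0) (f 1) (f 2)) {x : Fin p} (hx : c.Free x)
    (hx' : ∀ k, f k ≠ x) : (c.addA75 f hf hF hD).Free x := by
  refine ⟨fun i k => ?_, hx.2⟩
  induction i using Fin.cases with
  | zero => exact hx' k
  | succ i => exact hx.1 i k

theorem inj3_75 {α : Type} {a b c : α} (h1 : a ≠ b) (h2 : a ≠ c) (h3 : b ≠ c) :
    Function.Injective ![a, b, c] := by
  intro i j h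
  fin_cases i <;> fin_cases j <;> simp_all

theorem inj5_75 {α : Type} {a b c d e : α} (h1 : a ≠ b) (h2 : a ≠ c) (h3 : a ≠ d) (h4 : a ≠ e)
    (h5 : b ≠ c) (h6 : b ≠ d) (h7 : b ≠ e) (h8 : c ≠ d) (h9 : c ≠ e) (h10 : d ≠ e) :
    Function.Injective ![a, b, c, d, e] := by
  intro i j h
  fin_cases i <;> fin_cases j <;> simp_all

/-- one more A unit from three free points -/
theorem Conf.addT75 (c : Conf p D m n) {x y z : Fin p} (h1 : x ≠ y) (h2 : x ≠ z) (h3 : y ≠ z)
    (hx : c.Free x) (hy : c.Free y) (hz : c.Free z) (hD : D x y z) :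
    ∃ c' : Conf p D (m + 1) n, ∀ w, c.Free w → w ≠ x → w ≠ y → w ≠ z → c'.Free w := by
  have hF : ∀ k, c.Free (![x, y, z] k) := by
    intro k
    fin_cases k
    · exact hx
    · exact hy
    · exact hz
  refine ⟨c.addA75 ![x, y, z] (inj3_75 h1 h2 h3) hF hD, fun w hw e1 e2 e3 => ?_⟩
  refine Conf.free_addA75 c _ _ _ _ hw fun k => ?_
  fin_cases k
  · exact e1.symm
  · exact e2.symm
  · exact e3.symm

/-- one more B unit from five free points -/
theorem Conf.addF75 (c : Conf p D m n) {a b d y z : Fin p} (h1 : a ≠ b) (h2 : a ≠ d) (h3 : a ≠ y)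
    (h4 : a ≠ z) (h5 : b ≠ d) (h6 : b ≠ y) (h7 : b ≠ z) (h8 : d ≠ y) (h9 : d ≠ z) (h10 : y ≠ z)
    (ha : c.Free a) (hb : c.Free b) (hd : c.Free d) (hy : c.Free y) (hz : c.Free z)
    (hD : D a b d) (hD' : D a y z) : Nonempty (Conf p D m (n + 1)) := by
  have hF : ∀ k, c.Free (![a, b, d, y, z] k) := by
    intro k
    fin_cases k
    · exact ha
    · exact hb
    · exact hd
    · exact hy
    · exact hz
  exact ⟨c.addB75 ![a, b, d, y, z] (inj5_75 h1 h2 h3 h4 h5 h6 h7 h8 h9 h10) hF hD hD'⟩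

end Ext75

theorem exists_conf (p : ℕ) (D : Fin p → Fin p → Fin p → Prop)
    (hne : ∀ x y z, D x y z → x ≠ y ∧ x ≠ z ∧ y ≠ z) (hs₁ : ∀ x y z, D x y z → D y x z)
    (hs₂ : ∀ x y z, D x y z → D x z y) : ∃ (m n : ℕ) (c : Conf p D m n),
      (∀ x y z, c.Free x → c.Free y → c.Free z → ¬ D x y z) ∧
      (∀ i k y z, c.Free y → c.Free z → ¬ D (c.A i k) y z) ∧
      ∀ i k y z, k ≠ 0 → c.Free y → c.Free z → ¬ D (c.B i k) y z := by
  classical
  let P : Set ℕ := {s | ∃ m n, Nonempty (Conf p D m n) ∧ 2 * m + 3 * n = s}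
  have hP0 : P.Nonempty := by
    refine ⟨0, 0, 0, ⟨⟨fun i => i.elim0, fun i => i.elim0, fun i => i.elim0, fun i => i.elim0,
      fun i => i.elim0, fun i => i.elim0, fun i => i.elim0, fun i => i.elim0⟩⟩, rfl⟩
  have hPb : BddAbove P := by
    refine ⟨5 * p, ?_⟩
    rintro s ⟨m, n, ⟨c⟩, rfl⟩
    have h1 : m ≤ p := by
      have := Fintype.card_le_of_injective (fun i : Fin m => c.A i 0)
        fun i j h => (c.injA _ _ _ _ h).1
      rwa [Fintype.card_fin, Fintype.card_fin] at this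
    have h2 : n ≤ p := by
      have := Fintype.card_le_of_injective (fun i : Fin n => c.B i 0)
        fun i j h => (c.injB _ _ _ _ h).1
      rwa [Fintype.card_fin, Fintype.card_fin] at this
    omega
  obtain ⟨m, n, ⟨c⟩, hmn⟩ := Nat.sSup_mem hP0 hPb
  have hmax : ∀ m' n', Nonempty (Conf p D m' n') → 2 * m' + 3 * n' ≤ 2 * m + 3 * n := by
    intro m' n' h
    rw [hmn]
    exact le_csSup hPb ⟨m', n', h, rfl⟩
  refine ⟨m, n, c, ?_, ?_, ?_⟩
  · intro x y z hx hy hz hD
    obtain ⟨e1, e2, e3⟩ := hne x y z hD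
    obtain ⟨c', -⟩ := c.addT75 e1 e2 e3 hx hy hz hD
    have := hmax _ _ ⟨c'⟩
    omega
  · intro i k y z hy hz hD
    obtain ⟨m', rfl⟩ : ∃ m', m = m' + 1 := by
      cases m with
      | zero => exact i.elim0
      | succ m' => exact ⟨m', rfl⟩
    obtain ⟨e1, e2, e3⟩ := hne _ _ _ hD
    obtain ⟨k1, k2, hk1, hk2, hk3, hDk⟩ : ∃ k1 k2 : Fin 3, k ≠ k1 ∧ k ≠ k2 ∧ k1 ≠ k2 ∧
        D (c.A i k) (c.A i k1) (c.A i k2) := by
      have h0 := c.dA i
      have h1 := hs₁ _ _ _ h0
      have h2 := hs₂ _ _ _ (hs₁ _ _ _ (hs₂ _ _ _ h0))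
      have h3 := hs₁ _ _ _ (hs₂ _ _ _ h0)
      fin_cases k
      · exact ⟨1, 2, by decide, by decide, by decide, h0⟩
      · exact ⟨0, 2, by decide, by decide, by decide, h1⟩
      · exact ⟨0, 1, by decide, by decide, by decide, h3⟩
    have hne' : ∀ k k' : Fin 3, k ≠ k' → c.A i k ≠ c.A i k' := fun k k' hk h =>
      hk (c.injA _ _ _ _ h).2
    have hc' := (c.remA75 i).addF75 (hne' _ _ hk1) (hne' _ _ hk2) e1 e2 (hne' _ _ hk3)
      (hy.1 i k1) (hz.1 i k1) (hy.1 i k2) (hz.1 i k2) e3 (c.free_remA75_self i k)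
      (c.free_remA75_self i k1) (c.free_remA75_self i k2) (c.free_remA75 i hy)
      (c.free_remA75 i hz) hDk hD
    have := hmax _ _ hc'
    omega
  · intro i k y z hk hy hz hD
    obtain ⟨n', rfl⟩ : ∃ n', n = n' + 1 := by
      cases n with
      | zero => exact i.elim0
      | succ n' => exact ⟨n', rfl⟩
    obtain ⟨e1, e2, e3⟩ := hne _ _ _ hD
    obtain ⟨k1, k2, hk1, hk2, hDk⟩ : ∃ k1 k2 : Fin 5, k ≠ k1 ∧ k ≠ k2 ∧
        D (c.B i 0) (c.B i k1) (c.B i k2) := by
      have h0 := c.dB₁ i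
      have h1 := c.dB₂ i
      fin_cases k
      · exact absurd rfl hk
      · exact ⟨3, 4, by decide, by decide, h1⟩
      · exact ⟨3, 4, by decide, by decide, h1⟩
      · exact ⟨1, 2, by decide, by decide, h0⟩
      · exact ⟨1, 2, by decide, by decide, h0⟩
    obtain ⟨f1, f2, f3⟩ := hne _ _ _ hDk
    have hne' : ∀ k k' : Fin 5, k ≠ k' → c.B i k ≠ c.B i k' := fun k k' hk h =>
      hk (c.injB _ _ _ _ h).2
    obtain ⟨c1, hc1⟩ := (c.remB75 i).addT75 f1 f2 f3 (c.free_remB75_self i 0)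
      (c.free_remB75_self i k1) (c.free_remB75_self i k2) hDk
    obtain ⟨c2, -⟩ := c1.addT75 e1 e2 e3
      (hc1 _ (c.free_remB75_self i k) (hne' _ _ hk) (hne' _ _ hk1) (hne' _ _ hk2))
      (hc1 _ (c.free_remB75 i hy) (hy.2 i 0).symm (hy.2 i k1).symm (hy.2 i k2).symm)
      (hc1 _ (c.free_remB75 i hz) (hz.2 i 0).symm (hz.2 i k1).symm (hz.2 i k2).symm) hD
    have := hmax _ _ ⟨c2⟩
    omega

end Pool.Agent.RT16
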