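import Pool.Agent.RT16.Defs

/-!
# RT16/FamR: points which refute `(R_p)`

Copy of `pairs_of_not_radon` (HR54/Hull): `A` refutes `Radon 𝒞 p`, `a` enumerates `A` (injective); for disjoint `S`, `T` the sets
`a '' S`, `a '' T` are disjoint subsets of `A`, so their hulls are disjoint.
-/

set_option autoImplicit false

namespace Pool.Agent.RT16

open Pool.Agent.HR54

theorem fam_of_not_radon {V : Type} [Finite V] {G : SimpleGraph V} {𝒞 : Set (Set V)}
    (h : IsConvexity G 𝒞) {p : ℕ} (hR : ¬ Radon 𝒞 p) : ∃ a : Fin p → V, Fam G 𝒞 a := by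
  unfold Radon at hR
  push Not at hR
  obtain ⟨A, hA, hno⟩ := hR
  let e : Fin p ≃ A := (Fin.castOrderIso hA.symm).toEquiv.trans A.equivFin.symm
  let a : Fin p → V := fun i => (e i : V)
  have ha : ∀ i, a i ∈ (↑A : Set V) := fun i => (e i).2
  have hinj : Function.Injective a := fun i j hij => e.injective (Subtype.ext hij)
  refine ⟨a, h, ?_⟩
  intro S T hST
  rw [Set.disjoint_iff_inter_eq_empty]
  apply hno
  · rintro _ ⟨i, -, rfl⟩
    exact ha i
  · rintro _ ⟨i, -, rfl⟩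
    exact ha i
  · exact (Set.disjoint_image_iff hinj).2 hST

theorem hull_mono {V : Type} (𝒞 : Set (Set V)) {B C : Set V} (h : B ⊆ C) :
    hull 𝒞 B ⊆ hull 𝒞 C := by
  intro x hx
  unfold hull at hx ⊢
  rw [Set.mem_sInter] at hx ⊢
  intro K hK
  exact hx K ⟨hK.1, h.trans hK.2⟩

/-- (`hull_mem` and `hull_subset`) -/
theorem hull_le {V : Type} [Finite V] {G : SimpleGraph V} {𝒞 : Set (Set V)}
    (h : IsConvexity G 𝒞) {B C : Set V} (hB : B ⊆ hull 𝒞 C) : hull 𝒞 B ⊆ hull 𝒞 C :=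
  hull_subset (hull_mem h C) hB

end Pool.Agent.RT16
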