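import Pool.Agent.RT16.FamR

/-!
# RT16/Units: the index vertices of a configuration

Points go to `a`; the hub `3` of the A unit `i` to a vertex `z` of `hull {a x, a y} ∩ hull {a x, a w} ∩ hull {a y, a w}`, `x y w = A i 0, 1, 2`
(`Dirty`); the hubs `5`, `6` of the B unit `i` to such vertices for `B i 0, 1, 2` and `B i 0, 3, 4`. A hub of `{x, y, w}` is in
`hull (a '' S)` as soon as `S` contains two of the three points. `USys.sep`: two points: `{x}`, `{y}`; hub of `t` and point `x`: a pair in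
`t` without `x`, and `{x}`; the hubs `5`, `6`: `{B 1, B 2}`, `{B 3, B 4}`.
-/

set_option autoImplicit false

namespace Pool.Agent.RT16

open Pool.Agent.HR54

section units

variable {V : Type} {p : ℕ} {𝒞 : Set (Set V)} {a : Fin p → V}

/-- `z` and `w` are in hulls of disjoint subsets of `U`. -/
def UnitsSpl (𝒞 : Set (Set V)) (a : Fin p → V) (U : Set (Fin p)) (z w : V) : Prop :=
  ∃ S T : Set (Fin p), S ⊆ U ∧ T ⊆ U ∧ Disjoint S T ∧ z ∈ hull 𝒞 (a '' S) ∧ w ∈ hull 𝒞 (a '' T)

theorem UnitsSpl.symm {U : Set (Fin p)} {z w : V} (h : UnitsSpl 𝒞 a U z w) :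
    UnitsSpl 𝒞 a U w z := by
  obtain ⟨S, T, h1, h2, h3, h4, h5⟩ := h
  exact ⟨T, S, h2, h1, h3.symm, h5, h4⟩

theorem units_pt (x : Fin p) : a x ∈ hull 𝒞 (a '' {x}) :=
  subset_hull 𝒞 _ ⟨x, rfl, rfl⟩

theorem units_pair {x y : Fin p} {z : V} (hz : z ∈ hull 𝒞 {a x, a y}) {S : Set (Fin p)}
    (hx : x ∈ S) (hy : y ∈ S) : z ∈ hull 𝒞 (a '' S) := by
  refine hull_mono 𝒞 ?_ hz
  rintro w (rfl | hw)
  · exact ⟨x, hx, rfl⟩
  · rw [Set.mem_singleton_iff.1 hw]
    exact ⟨y, hy, rfl⟩

theorem units_spl_pts {U : Set (Fin p)} {x y : Fin p} (hx : x ∈ U) (hy : y ∈ U) (h : x ≠ y) :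
    UnitsSpl 𝒞 a U (a x) (a y) :=
  ⟨{x}, {y}, Set.singleton_subset_iff.2 hx, Set.singleton_subset_iff.2 hy,
    Set.disjoint_singleton.2 h, units_pt x, units_pt y⟩

theorem units_spl_pair {U : Set (Fin p)} {x y r : Fin p} {z : V} (hz : z ∈ hull 𝒞 {a x, a y})
    (hx : x ∈ U) (hy : y ∈ U) (hr : r ∈ U) (h1 : r ≠ x) (h2 : r ≠ y) :
    UnitsSpl 𝒞 a U z (a r) := by
  refine ⟨{x, y}, {r}, ?_, Set.singleton_subset_iff.2 hr, ?_,
    units_pair hz (Set.mem_insert _ _) (Set.mem_insert_of_mem _ rfl), units_pt r⟩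
  · rintro w (rfl | hw)
    · exact hx
    · rw [Set.mem_singleton_iff.1 hw]; exact hy
  · rw [Set.disjoint_singleton_right]
    rintro (h | h)
    · exact h1 h
    · exact h2 h

theorem units_spl_hub {U : Set (Fin p)} {x y w r : Fin p} {z : V}
    (hz : z ∈ hull 𝒞 {a x, a y} ∩ hull 𝒞 {a x, a w} ∩ hull 𝒞 {a y, a w}) (hxy : x ≠ y)
    (hxw : x ≠ w) (hyw : y ≠ w)
    (hx : x ∈ U) (hy : y ∈ U) (hw : w ∈ U) (hr : r ∈ U) : UnitsSpl 𝒞 a U z (a r) := by
  obtain ⟨⟨z1, z2⟩, z3⟩ := hz
  by_cases h1 : r = x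
  · subst h1
    exact units_spl_pair z3 hy hw hr hxy hxw
  · by_cases h2 : r = y
    · subst h2
      exact units_spl_pair z2 hx hw hr h1 hyw
    · exact units_spl_pair z1 hx hy hr h1 h2

theorem units_spl_hubs {U : Set (Fin p)} {x y x' y' : Fin p} {z z' : V}
    (hz : z ∈ hull 𝒞 {a x, a y}) (hz' : z' ∈ hull 𝒞 {a x', a y'}) (hx : x ∈ U) (hy : y ∈ U)
    (hx' : x' ∈ U) (hy' : y' ∈ U) (h1 : x ≠ x') (h2 : x ≠ y') (h3 : y ≠ x') (h4 : y ≠ y') :
    UnitsSpl 𝒞 a U z z' := by
  refine ⟨{x, y}, {x', y'}, ?_, ?_, ?_,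
    units_pair hz (Set.mem_insert _ _) (Set.mem_insert_of_mem _ rfl),
    units_pair hz' (Set.mem_insert _ _) (Set.mem_insert_of_mem _ rfl)⟩
  · rintro w (rfl | hw)
    · exact hx
    · rw [Set.mem_singleton_iff.1 hw]; exact hy
  · rintro w (rfl | hw)
    · exact hx'
    · rw [Set.mem_singleton_iff.1 hw]; exact hy'
  · rw [Set.disjoint_left]
    rintro w (rfl | hw) (h | h)
    · exact h1 h
    · exact h2 h
    · rw [Set.mem_singleton_iff.1 hw] at h; exact h3 h
    · rw [Set.mem_singleton_iff.1 hw] at h; exact h4 h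

end units

theorem exists_usys {V : Type} [Finite V] {G : SimpleGraph V} {p : ℕ} {𝒞 : Set (Set V)}
    {a : Fin p → V} (hF : Fam G 𝒞 a) {m n : ℕ} (c : Conf p (Dirty 𝒞 a) m n) :
    ∃ v : c.Idx → V, USys 𝒞 a c.lab c.supp v ∧ (∀ x, v (Sum.inl x) = a x.1) ∧
      (∀ i (k : Fin 3), v (Sum.inr (Sum.inl (i, k.castAdd 1))) = a (c.A i k)) ∧
      ∀ i (k : Fin 5), v (Sum.inr (Sum.inr (i, k.castAdd 2))) = a (c.B i k) := by
  have _ := hF
  choose zA hzA using fun i => (c.dA i).2.2.2
  choose z1 hz1 using fun i => (c.dB₁ i).2.2.2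
  choose z2 hz2 using fun i => (c.dB₂ i).2.2.2
  let vA : Fin m → Fin (3 + 1) → V := fun i => Fin.addCases (fun k => a (c.A i k)) (fun _ => zA i)
  let vB : Fin n → Fin (5 + 2) → V := fun i => Fin.addCases (fun k => a (c.B i k))
    (fun k => if k = 0 then z1 i else z2 i)
  have hvA1 : ∀ i (k : Fin 3), vA i (k.castAdd 1) = a (c.A i k) := fun i k =>
    Fin.addCases_left k
  have hvA2 : ∀ i (k : Fin 1), vA i (Fin.natAdd 3 k) = zA i := fun i k => Fin.addCases_right k
  have hvB1 : ∀ i (k : Fin 5), vB i (k.castAdd 2) = a (c.B i k) := fun i k =>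
    Fin.addCases_left k
  have hvB2 : ∀ i (k : Fin 2), vB i (Fin.natAdd 5 k) = if k = 0 then z1 i else z2 i :=
    fun i k => Fin.addCases_right k
  have memA : ∀ i k, c.A i k ∈ Set.range (c.A i) := fun i k => ⟨k, rfl⟩
  have memB : ∀ i k, c.B i k ∈ Set.range (c.B i) := fun i k => ⟨k, rfl⟩
  have neA : ∀ i k k', k ≠ k' → c.A i k ≠ c.A i k' := fun i k k' h h' => h (c.injA i k i k' h').2
  have neB : ∀ i k k', k ≠ k' → c.B i k ≠ c.B i k' := fun i k k' h h' => h (c.injB i k i k' h').2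
  -- separation inside the units
  have sepA : ∀ i (k k' : Fin (3 + 1)), k ≠ k' →
      UnitsSpl 𝒞 a (Set.range (c.A i)) (vA i k) (vA i k') := by
    intro i k k'
    have hub : ∀ r : Fin 3, UnitsSpl 𝒞 a (Set.range (c.A i)) (zA i) (a (c.A i r)) := fun r =>
      units_spl_hub (hzA i) (c.dA i).1 (c.dA i).2.1 (c.dA i).2.2.1 (memA i _) (memA i _)
        (memA i _) (memA i _)
    refine Fin.addCases (fun k => ?_) (fun k => ?_) k
    · refine Fin.addCases (fun k' => ?_) (fun k' => ?_) k'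
      · intro h
        rw [hvA1, hvA1]
        exact units_spl_pts (memA i _) (memA i _) (neA i _ _ (fun h' => h (by rw [h'])))
      · intro _
        rw [hvA1, hvA2]
        exact (hub k).symm
    · refine Fin.addCases (fun k' => ?_) (fun k' => ?_) k'
      · intro _
        rw [hvA1, hvA2]
        exact hub k'
      · intro h
        exact absurd (by rw [Subsingleton.elim k k']) h
  have sepB : ∀ i (k k' : Fin (5 + 2)), k ≠ k' →
      UnitsSpl 𝒞 a (Set.range (c.B i)) (vB i k) (vB i k') := by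
    intro i k k'
    have hub1 : ∀ r : Fin 5, UnitsSpl 𝒞 a (Set.range (c.B i)) (z1 i) (a (c.B i r)) := fun r =>
      units_spl_hub (hz1 i) (c.dB₁ i).1 (c.dB₁ i).2.1 (c.dB₁ i).2.2.1 (memB i _) (memB i _)
        (memB i _) (memB i _)
    have hub2 : ∀ r : Fin 5, UnitsSpl 𝒞 a (Set.range (c.B i)) (z2 i) (a (c.B i r)) := fun r =>
      units_spl_hub (hz2 i) (c.dB₂ i).1 (c.dB₂ i).2.1 (c.dB₂ i).2.2.1 (memB i _) (memB i _)
        (memB i _) (memB i _)
    have hub : ∀ (k : Fin 2) (r : Fin 5), UnitsSpl 𝒞 a (Set.range (c.B i))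
        (if k = 0 then z1 i else z2 i) (a (c.B i r)) := by
      intro k r
      split_ifs
      · exact hub1 r
      · exact hub2 r
    have hubs : UnitsSpl 𝒞 a (Set.range (c.B i)) (z1 i) (z2 i) :=
      units_spl_hubs (x := c.B i 1) (y := c.B i 2) (x' := c.B i 3) (y' := c.B i 4)
        (hz1 i).2 (hz2 i).2 (memB i _) (memB i _) (memB i _) (memB i _)
        (neB i _ _ (by decide)) (neB i _ _ (by decide)) (neB i _ _ (by decide))
        (neB i _ _ (by decide))
    refine Fin.addCases (fun k => ?_) (fun k => ?_) k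
    · refine Fin.addCases (fun k' => ?_) (fun k' => ?_) k'
      · intro h
        rw [hvB1, hvB1]
        exact units_spl_pts (memB i _) (memB i _) (neB i _ _ (fun h' => h (by rw [h'])))
      · intro _
        rw [hvB1, hvB2]
        exact (hub k' k).symm
    · refine Fin.addCases (fun k' => ?_) (fun k' => ?_) k'
      · intro _
        rw [hvB1, hvB2]
        exact hub k k'
      · intro h
        rw [hvB2, hvB2]
        have hne : k ≠ k' := fun h' => h (by rw [h'])
        by_cases h0 : k = 0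
        · have h0' : k' ≠ 0 := fun h' => hne (h0.trans h'.symm)
          rw [if_pos h0, if_neg h0']
          exact hubs
        · have h0' : k' = 0 := by omega
          rw [if_neg h0, if_pos h0']
          exact hubs.symm
  have ownA : ∀ i (k : Fin (3 + 1)), vA i k ∈ hull 𝒞 (a '' Set.range (c.A i)) := by
    intro i k
    refine Fin.addCases (fun k => ?_) (fun k => ?_) k
    · rw [hvA1]
      exact subset_hull 𝒞 _ ⟨_, memA i k, rfl⟩
    · rw [hvA2]
      exact units_pair (hzA i).2 (memA i _) (memA i _)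
  have ownB : ∀ i (k : Fin (5 + 2)), vB i k ∈ hull 𝒞 (a '' Set.range (c.B i)) := by
    intro i k
    refine Fin.addCases (fun k => ?_) (fun k => ?_) k
    · rw [hvB1]
      exact subset_hull 𝒞 _ ⟨_, memB i k, rfl⟩
    · rw [hvB2]
      split_ifs
      · exact units_pair (hz1 i).2 (memB i _) (memB i _)
      · exact units_pair (hz2 i).2 (memB i _) (memB i _)
  refine ⟨fun u => match u with
    | Sum.inl x => a x.1
    | Sum.inr (Sum.inl (i, k)) => vA i k
    | Sum.inr (Sum.inr (i, k)) => vB i k, ⟨?_, ?_, ?_⟩, fun _ => rfl, ?_, ?_⟩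
  · -- units are disjoint
    have dAA : ∀ i j, i ≠ j → Disjoint (Set.range (c.A i)) (Set.range (c.A j)) := by
      intro i j hij
      rw [Set.disjoint_left]
      rintro _ ⟨k, rfl⟩ ⟨k', h⟩
      exact hij (c.injA _ _ _ _ h).1.symm
    have dBB : ∀ i j, i ≠ j → Disjoint (Set.range (c.B i)) (Set.range (c.B j)) := by
      intro i j hij
      rw [Set.disjoint_left]
      rintro _ ⟨k, rfl⟩ ⟨k', h⟩
      exact hij (c.injB _ _ _ _ h).1.symm
    have dAB : ∀ i j, Disjoint (Set.range (c.A i)) (Set.range (c.B j)) := by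
      intro i j
      rw [Set.disjoint_left]
      rintro _ ⟨k, rfl⟩ ⟨k', h⟩
      exact c.injAB _ _ _ _ h.symm
    have dFA : ∀ (x : {x : Fin p // c.Free x}) i, Disjoint {x.1} (Set.range (c.A i)) := by
      intro x i
      rw [Set.disjoint_singleton_left]
      rintro ⟨k, hk⟩
      exact x.2.1 i k hk
    have dFB : ∀ (x : {x : Fin p // c.Free x}) i, Disjoint {x.1} (Set.range (c.B i)) := by
      intro x i
      rw [Set.disjoint_singleton_left]
      rintro ⟨k, hk⟩
      exact x.2.2 i k hk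
    rintro (x | i | i) (y | j | j) h
    · exact Set.disjoint_singleton.2 fun h' => h (by rw [Subtype.ext h'])
    · exact dFA x j
    · exact dFB x j
    · exact (dFA y i).symm
    · exact dAA i j fun h' => h (by rw [h'])
    · exact dAB i j
    · exact (dFB y i).symm
    · exact (dAB j i).symm
    · exact dBB i j fun h' => h (by rw [h'])
  · -- own hull
    rintro (x | ⟨i, k⟩ | ⟨i, k⟩)
    · exact units_pt x.1
    · exact ownA i k
    · exact ownB i k
  · -- separation
    rintro (x | ⟨i, k⟩ | ⟨i, k⟩) (y | ⟨j, l⟩ | ⟨j, l⟩) hne hlab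
    · have hxy : x = y := Sum.inl.inj hlab
      exact absurd (by rw [hxy]) hne
    · cases hlab
    · cases hlab
    · cases hlab
    · obtain rfl : i = j := Sum.inl.inj (Sum.inr.inj hlab)
      exact sepA i k l fun h => hne (by rw [h])
    · cases Sum.inr.inj hlab
    · cases hlab
    · cases Sum.inr.inj hlab
    · obtain rfl : i = j := Sum.inr.inj (Sum.inr.inj hlab)
      exact sepB i k l fun h => hne (by rw [h])
  · exact fun i k => hvA1 i k
  · exact fun i k => hvB1 i k

end Pool.Agent.RT16
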