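import Pool.Agent.RT16.Role
import Pool.Agent.RT16.Ext
import Pool.Agent.RT16.Card
import Pool.Agent.RT16.Units

/-!
# RT16/Main

`fam_of_not_radon`, `exists_conf` with `D = Dirty 𝒞 a`, `exists_usys`. `clique_of_roles` with: `I` the free points; `X`: `1`, `2` in
A units, `1`, `2`, `3` in B units, `4` in the B units `i` with `i` even; `Y`: `0`, `3` in A units, `0`, `5`, `6` in B units, `4` in the B units `i`
with `i` odd; `rk`: `i` for the A unit `i`, `i` for the B unit `i` too would make the units equal, so `m + i` for B units (free points: `0`).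
`ι = Free ⊕ (Fin (m-1) × Fin 2) ⊕ (Fin (n-1) × Fin 3) ⊕ Fin (n/2)`; `f`, `g`: a free point twice; `(A k 1, A (k+1) 0)`, `(A k 2, A (k+1) 3)`;
`(B k 1, B (k+1) 0)`, `(B k 2, B (k+1) 5)`, `(B k 3, B (k+1) 6)`; `(B (2l) 4, B (2l+1) 4)`.
-/

set_option autoImplicit false

namespace Pool.Agent.RT16

open Pool.Agent.HR54

theorem main_empty {V : Type} {p : ℕ} {𝒞 : Set (Set V)} {a : Fin p → V} {x y z : Fin p}
    (h : ¬ Dirty 𝒞 a x y z) (hxy : x ≠ y) (hxz : x ≠ z) (hyz : y ≠ z) :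
    hull 𝒞 {a x, a y} ∩ hull 𝒞 {a x, a z} ∩ hull 𝒞 {a y, a z} = ∅ := by
  by_contra hne
  exact h ⟨hxy, hxz, hyz, Set.nonempty_iff_ne_empty.2 hne⟩

section MainDefs

variable {p : ℕ} {D : Fin p → Fin p → Fin p → Prop} {m n : ℕ}

/-- The free points. -/
def MainI (c : Conf p D m n) : c.Idx → Prop
  | Sum.inl _ => True
  | Sum.inr _ => False

/-- The lower ends. -/
def MainX (c : Conf p D m n) : c.Idx → Prop
  | Sum.inl _ => False
  | Sum.inr (Sum.inl (_, k)) => k = 1 ∨ k = 2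
  | Sum.inr (Sum.inr (i, k)) => k = 1 ∨ k = 2 ∨ k = 3 ∨ (k = 4 ∧ i.1 % 2 = 0)

/-- The upper ends. -/
def MainY (c : Conf p D m n) : c.Idx → Prop
  | Sum.inl _ => False
  | Sum.inr (Sum.inl (_, k)) => k = 0 ∨ k = 3
  | Sum.inr (Sum.inr (i, k)) => k = 0 ∨ k = 5 ∨ k = 6 ∨ (k = 4 ∧ i.1 % 2 = 1)

/-- The ranks. -/
def mainRk (c : Conf p D m n) : c.Idx → ℕ
  | Sum.inl _ => 0
  | Sum.inr (Sum.inl (i, _)) => i.1
  | Sum.inr (Sum.inr (i, _)) => m + i.1

/-- The indices of the branch sets. -/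
abbrev MainIx (c : Conf p D m n) : Type :=
  {x : Fin p // c.Free x} ⊕ (Fin (m - 1) × Fin 2) ⊕ (Fin (n - 1) × Fin 3) ⊕ Fin (n / 2)

/-- The lower vertex of a branch set. -/
def mainF (c : Conf p D m n) : MainIx c → c.Idx
  | Sum.inl x => Sum.inl x
  | Sum.inr (Sum.inl (k, t)) => Sum.inr (Sum.inl (⟨k.1, by omega⟩, (![1, 2] : Fin 2 → Fin 4) t))
  | Sum.inr (Sum.inr (Sum.inl (k, t))) =>
    Sum.inr (Sum.inr (⟨k.1, by omega⟩, (![1, 2, 3] : Fin 3 → Fin 7) t))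
  | Sum.inr (Sum.inr (Sum.inr l)) => Sum.inr (Sum.inr (⟨2 * l.1, by omega⟩, 4))

/-- The upper vertex of a branch set. -/
def mainG (c : Conf p D m n) : MainIx c → c.Idx
  | Sum.inl x => Sum.inl x
  | Sum.inr (Sum.inl (k, t)) =>
    Sum.inr (Sum.inl (⟨k.1 + 1, by omega⟩, (![0, 3] : Fin 2 → Fin 4) t))
  | Sum.inr (Sum.inr (Sum.inl (k, t))) =>
    Sum.inr (Sum.inr (⟨k.1 + 1, by omega⟩, (![0, 5, 6] : Fin 3 → Fin 7) t))
  | Sum.inr (Sum.inr (Sum.inr l)) => Sum.inr (Sum.inr (⟨2 * l.1 + 1, by omega⟩, 4))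

theorem mainRk_lab (c : Conf p D m n) {u w : c.Idx} (h : c.lab u = c.lab w) :
    mainRk c u = mainRk c w := by
  rcases u with x | ⟨i, k⟩ | ⟨i, k⟩ <;> rcases w with y | ⟨j, l⟩ | ⟨j, l⟩ <;>
    simp only [Conf.lab, Sum.map_inl, Sum.map_inr, id, reduceCtorEq, Sum.inl.injEq,
      Sum.inr.injEq] at h
  · rfl
  · rw [show mainRk c (Sum.inr (Sum.inl (i, k))) = i.1 from rfl, h]; rfl
  · rw [show mainRk c (Sum.inr (Sum.inr (i, k))) = m + i.1 from rfl, h]; rfl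

theorem main12 : ∀ t t' : Fin 2, (![1, 2] : Fin 2 → Fin 4) t = (![1, 2] : Fin 2 → Fin 4) t' →
    t = t' := by decide

theorem main03 : ∀ t t' : Fin 2, (![0, 3] : Fin 2 → Fin 4) t = (![0, 3] : Fin 2 → Fin 4) t' →
    t = t' := by decide

theorem main1203 : ∀ t t' : Fin 2,
    (![1, 2] : Fin 2 → Fin 4) t ≠ (![0, 3] : Fin 2 → Fin 4) t' := by decide

theorem main123 : ∀ t t' : Fin 3,
    (![1, 2, 3] : Fin 3 → Fin 7) t = (![1, 2, 3] : Fin 3 → Fin 7) t' → t = t' := by decide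

theorem main056 : ∀ t t' : Fin 3,
    (![0, 5, 6] : Fin 3 → Fin 7) t = (![0, 5, 6] : Fin 3 → Fin 7) t' → t = t' := by decide

theorem main123056 : ∀ t t' : Fin 3,
    (![1, 2, 3] : Fin 3 → Fin 7) t ≠ (![0, 5, 6] : Fin 3 → Fin 7) t' := by decide

theorem main1234 : ∀ t : Fin 3, (![1, 2, 3] : Fin 3 → Fin 7) t ≠ 4 := by decide

theorem main0564 : ∀ t : Fin 3, (![0, 5, 6] : Fin 3 → Fin 7) t ≠ 4 := by decide

theorem mainF_inj (c : Conf p D m n) {i j : MainIx c} (h : mainF c i = mainF c j) : i = j := by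
  rcases i with x | ⟨k, t⟩ | ⟨k, t⟩ | l <;> rcases j with y | ⟨k', t'⟩ | ⟨k', t'⟩ | l' <;>
    simp only [mainF, reduceCtorEq, Sum.inl.injEq, Sum.inr.injEq, Prod.mk.injEq,
      Fin.mk.injEq] at h
  · rw [h]
  · rw [Fin.ext h.1, main12 _ _ h.2]
  · rw [Fin.ext h.1, main123 _ _ h.2]
  · exact absurd h.2 (main1234 _)
  · exact absurd h.2.symm (main1234 _)
  · rw [show l = l' from Fin.ext (by omega)]

theorem mainG_inj (c : Conf p D m n) {i j : MainIx c} (h : mainG c i = mainG c j) : i = j := by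
  rcases i with x | ⟨k, t⟩ | ⟨k, t⟩ | l <;> rcases j with y | ⟨k', t'⟩ | ⟨k', t'⟩ | l' <;>
    simp only [mainG, reduceCtorEq, Sum.inl.injEq, Sum.inr.injEq, Prod.mk.injEq,
      Fin.mk.injEq] at h
  · rw [h]
  · rw [show k = k' from Fin.ext (by omega), main03 _ _ h.2]
  · rw [show k = k' from Fin.ext (by omega), main056 _ _ h.2]
  · exact absurd h.2 (main0564 _)
  · exact absurd h.2.symm (main0564 _)
  · rw [show l = l' from Fin.ext (by omega)]

theorem mainFG (c : Conf p D m n) {i j : MainIx c} (h : mainF c i = mainG c j) : i = j := by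
  rcases i with x | ⟨k, t⟩ | ⟨k, t⟩ | l <;> rcases j with y | ⟨k', t'⟩ | ⟨k', t'⟩ | l' <;>
    simp only [mainF, mainG, reduceCtorEq, Sum.inl.injEq, Sum.inr.injEq, Prod.mk.injEq,
      Fin.mk.injEq] at h
  · rw [h]
  · exact absurd h.2 (main1203 _ _)
  · exact absurd h.2 (main123056 _ _)
  · exact absurd h.2 (main1234 _)
  · exact absurd h.2.symm (main0564 _)
  · omega

theorem mainF_role (c : Conf p D m n) (i : MainIx c) :
    (mainF c i = mainG c i ∧ MainI c (mainF c i)) ∨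
      (MainX c (mainF c i) ∧ MainY c (mainG c i) ∧ mainRk c (mainF c i) < mainRk c (mainG c i)) := by
  rcases i with x | ⟨k, t⟩ | ⟨k, t⟩ | l
  · exact Or.inl ⟨rfl, trivial⟩
  · right
    refine ⟨?_, ?_, Nat.lt_succ_self _⟩
    · revert t
      show ∀ t : Fin 2, (![1, 2] : Fin 2 → Fin 4) t = 1 ∨ (![1, 2] : Fin 2 → Fin 4) t = 2
      decide
    · revert t
      show ∀ t : Fin 2, (![0, 3] : Fin 2 → Fin 4) t = 0 ∨ (![0, 3] : Fin 2 → Fin 4) t = 3
      decide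
  · right
    refine ⟨?_, ?_, Nat.lt_succ_self _⟩
    · have h : ∀ t : Fin 3, (![1, 2, 3] : Fin 3 → Fin 7) t = 1 ∨
          (![1, 2, 3] : Fin 3 → Fin 7) t = 2 ∨ (![1, 2, 3] : Fin 3 → Fin 7) t = 3 := by decide
      rcases h t with h | h | h
      · exact Or.inl h
      · exact Or.inr (Or.inl h)
      · exact Or.inr (Or.inr (Or.inl h))
    · have h : ∀ t : Fin 3, (![0, 5, 6] : Fin 3 → Fin 7) t = 0 ∨
          (![0, 5, 6] : Fin 3 → Fin 7) t = 5 ∨ (![0, 5, 6] : Fin 3 → Fin 7) t = 6 := by decide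
      rcases h t with h | h | h
      · exact Or.inl h
      · exact Or.inr (Or.inl h)
      · exact Or.inr (Or.inr (Or.inl h))
  · right
    refine ⟨?_, ?_, Nat.lt_succ_self _⟩
    · exact Or.inr (Or.inr (Or.inr ⟨rfl, by show 2 * l.1 % 2 = 0; omega⟩))
    · exact Or.inr (Or.inr (Or.inr ⟨rfl, by show (2 * l.1 + 1) % 2 = 1; omega⟩))

theorem mainXY (c : Conf p D m n) (u : c.Idx) (h1 : MainX c u) (h2 : MainY c u) : False := by
  rcases u with x | ⟨i, k⟩ | ⟨i, k⟩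
  · exact h1
  · simp only [MainX, MainY] at h1 h2
    rcases h1 with rfl | rfl <;> rcases h2 with h2 | h2 <;> revert h2 <;> decide
  · simp only [MainX, MainY] at h1 h2
    rcases h1 with rfl | rfl | rfl | ⟨rfl, h1⟩ <;> rcases h2 with h2 | h2 | h2 | ⟨h2, h3⟩
    all_goals omega

end MainDefs

theorem clique_of_fam {V : Type} [Finite V] {G : SimpleGraph V} {p : ℕ} {𝒞 : Set (Set V)}
    {a : Fin p → V} (hF : Fam G 𝒞 a) {m n : ℕ} (c : Conf p (Dirty 𝒞 a) m n)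
    (h1 : ∀ x y z, c.Free x → c.Free y → c.Free z → ¬ Dirty 𝒞 a x y z)
    (h2 : ∀ i k y z, c.Free y → c.Free z → ¬ Dirty 𝒞 a (c.A i k) y z)
    (h3 : ∀ i k y z, k ≠ 0 → c.Free y → c.Free z → ¬ Dirty 𝒞 a (c.B i k) y z) {h : ℕ}
    (hh : h ≤ Nat.card {x : Fin p // c.Free x} + (m - 1) * 2 + (n - 1) * 3 + n / 2) :
    CliqueMinor G h := by
  classical
  obtain ⟨v, hU, hv1, hv2, hv3⟩ := exists_usys hF c
  have hX : ∀ u, MainX c u → ∃ x : Fin p, v u = a x ∧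
      ∀ y z, c.Free y → c.Free z → x ≠ y ∧ x ≠ z ∧ ¬ Dirty 𝒞 a x y z := by
    intro u hu
    rcases u with x | ⟨i, k⟩ | ⟨i, k⟩
    · exact absurd hu id
    · have hA : ∀ k : Fin 3, ∀ y z, c.Free y → c.Free z →
          c.A i k ≠ y ∧ c.A i k ≠ z ∧ ¬ Dirty 𝒞 a (c.A i k) y z :=
        fun k y z hy hz => ⟨hy.1 i k, hz.1 i k, h2 i k y z hy hz⟩
      simp only [MainX] at hu
      rcases hu with rfl | rfl
      · exact ⟨c.A i 1, hv2 i 1, hA 1⟩
      · exact ⟨c.A i 2, hv2 i 2, hA 2⟩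
    · have hB : ∀ k : Fin 5, k ≠ 0 → ∀ y z, c.Free y → c.Free z →
          c.B i k ≠ y ∧ c.B i k ≠ z ∧ ¬ Dirty 𝒞 a (c.B i k) y z :=
        fun k hk y z hy hz => ⟨hy.2 i k, hz.2 i k, h3 i k y z hk hy hz⟩
      simp only [MainX] at hu
      rcases hu with rfl | rfl | rfl | ⟨rfl, _⟩
      · exact ⟨c.B i 1, hv3 i 1, hB 1 (by decide)⟩
      · exact ⟨c.B i 2, hv3 i 2, hB 2 (by decide)⟩
      · exact ⟨c.B i 3, hv3 i 3, hB 3 (by decide)⟩
      · exact ⟨c.B i 4, hv3 i 4, hB 4 (by decide)⟩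
  have hI : ∀ u, MainI c u → ∃ x, u = Sum.inl x := by
    rintro (x | u) hu
    · exact ⟨x, rfl⟩
    · exact absurd hu id
  have hne : ∀ {x y : {x : Fin p // c.Free x}}, (Sum.inl x : c.Idx) ≠ Sum.inl y →
      x.1 ≠ y.1 := fun h e => h (congrArg Sum.inl (Subtype.ext e))
  refine clique_of_roles hF hU {u | MainI c u} {u | MainX c u} {u | MainY c u} ?_ ?_ ?_
    (mainRk c) ?_ ?_ ?_ ?_ (mainF c) (mainG c) (fun i => mainF_role c i) ?_ ?_
  · refine Set.disjoint_left.2 fun u hu hu' => ?_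
    obtain ⟨x, rfl⟩ := hI u hu
    exact hu'
  · refine Set.disjoint_left.2 fun u hu hu' => ?_
    obtain ⟨x, rfl⟩ := hI u hu
    exact hu'
  · exact Set.disjoint_left.2 fun u hu hu' => mainXY c u hu hu'
  · intro x _ y _ hlt he
    have := mainRk_lab c he
    omega
  · intro i hi u hl
    obtain ⟨x, rfl⟩ := hI i hi
    rcases u with y | ⟨j, l⟩ | ⟨j, l⟩
    · simp only [Conf.lab, Sum.map_inl, id, Sum.inl.injEq] at hl
      rw [hl]
    · simp [Conf.lab] at hl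
    · simp [Conf.lab] at hl
  · intro i hi j hj k hk hij hik hjk
    obtain ⟨x, rfl⟩ := hI i hi
    obtain ⟨y, rfl⟩ := hI j hj
    obtain ⟨z, rfl⟩ := hI k hk
    rw [hv1, hv1, hv1]
    exact main_empty (h1 _ _ _ x.2 y.2 z.2) (hne hij) (hne hik) (hne hjk)
  · intro x hx i hi j hj hij
    obtain ⟨x', hx1, hx2⟩ := hX x hx
    obtain ⟨y, rfl⟩ := hI i hi
    obtain ⟨z, rfl⟩ := hI j hj
    obtain ⟨h4, h5, h6⟩ := hx2 y.1 z.1 y.2 z.2
    rw [hv1, hv1, hx1]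
    exact main_empty h6 h4 h5 (hne hij)
  · intro i j hij
    exact ⟨fun h => hij (mainF_inj c h), fun h => hij (mainG_inj c h),
      fun h => hij (mainFG c h)⟩
  · rw [Fintype.card_sum, Fintype.card_sum, Fintype.card_sum, Fintype.card_prod,
      Fintype.card_prod, Fintype.card_fin, Fintype.card_fin, Fintype.card_fin, Fintype.card_fin,
      Fintype.card_fin, ← Nat.card_eq_fintype_card]
    omega

theorem clique_of_not_radon {V : Type} [Finite V] (G : SimpleGraph V) (𝒞 : Set (Set V))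
    (h𝒞 : IsConvexity G 𝒞) {p h : ℕ} (hp : 3 * h + 16 ≤ 2 * p) (hR : ¬ Radon 𝒞 p) :
    CliqueMinor G h := by
  obtain ⟨a, hF⟩ := fam_of_not_radon h𝒞 hR
  obtain ⟨m, n, c, h1, h2, h3⟩ := exists_conf p (Dirty 𝒞 a)
    (fun x y z hD => ⟨hD.1, hD.2.1, hD.2.2.1⟩)
    (fun x y z hD => by
      obtain ⟨e1, e2, e3, w, ⟨w1, w2⟩, w3⟩ := hD
      refine ⟨e1.symm, e3, e2, w, ⟨?_, w3⟩, w2⟩
      rw [Set.pair_comm]
      exact w1)
    (fun x y z hD => by
      obtain ⟨e1, e2, e3, w, ⟨w1, w2⟩, w3⟩ := hD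
      refine ⟨e2, e1, e3.symm, w, ⟨w2, w1⟩, ?_⟩
      rw [Set.pair_comm]
      exact w3)
  have hc := card_free c
  exact clique_of_fam hF c h1 h2 h3 (by omega)

end Pool.Agent.RT16
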