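import Pool.Agent.RT16.WebU
import Pool.Agent.RT16.Minor
import Pool.Agent.RT16.Pair

/-!
# RT16/Role: singles and doubles

`H`: `u ~ w` iff both are different elements of `I`, or one is in `I` and the other in `X`, or `u ∈ X`, `w ∈ Y`, `rk u < rk w` or
conversely. Its triangles are `i j k` and `x i j` (`I`, `X`, `Y` are pairwise disjoint). `web_of_usys`, `minor_of_web`, `clique_of_pairs`: for two
doubles with `rk (g i) ≤ rk (g j)`: `rk (f i) < rk (g i) ≤ rk (g j)`, so `f i ~ g j`.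
-/

set_option autoImplicit false

namespace Pool.Agent.RT16

open Pool.Agent.HR54

theorem clique_of_roles {V U L ι : Type} [Finite V] [Fintype ι] {G : SimpleGraph V} {p : ℕ}
    {𝒞 : Set (Set V)} {a : Fin p → V} (hF : Fam G 𝒞 a) {lab : U → L} {supp : L → Set (Fin p)}
    {v : U → V} (hU : USys 𝒞 a lab supp v) (I X Y : Set U) (hIX : Disjoint I X)
    (hIY : Disjoint I Y) (hXY : Disjoint X Y) (rk : U → ℕ)
    (h1 : ∀ x ∈ X, ∀ y ∈ Y, rk x < rk y → lab x ≠ lab y)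
    (h2 : ∀ i ∈ I, ∀ u, lab i = lab u → i = u)
    (h3 : ∀ i ∈ I, ∀ j ∈ I, ∀ k ∈ I, i ≠ j → i ≠ k → j ≠ k →
      hull 𝒞 {v i, v j} ∩ hull 𝒞 {v i, v k} ∩ hull 𝒞 {v j, v k} = ∅)
    (h4 : ∀ x ∈ X, ∀ i ∈ I, ∀ j ∈ I, i ≠ j →
      hull 𝒞 {v x, v i} ∩ hull 𝒞 {v x, v j} ∩ hull 𝒞 {v i, v j} = ∅)
    (f g : ι → U)
    (h5 : ∀ i, (f i = g i ∧ f i ∈ I) ∨ (f i ∈ X ∧ g i ∈ Y ∧ rk (f i) < rk (g i)))
    (h6 : ∀ i j, i ≠ j → f i ≠ f j ∧ g i ≠ g j ∧ f i ≠ g j) {h : ℕ}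
    (hh : h ≤ Fintype.card ι) : CliqueMinor G h := by
  have dIX : ∀ u, u ∈ I → u ∈ X → False := fun u h h' => Set.disjoint_left.1 hIX h h'
  have dIY : ∀ u, u ∈ I → u ∈ Y → False := fun u h h' => Set.disjoint_left.1 hIY h h'
  have dXY : ∀ u, u ∈ X → u ∈ Y → False := fun u h h' => Set.disjoint_left.1 hXY h h'
  let H : SimpleGraph U :=
    { Adj := fun u w => (u ≠ w ∧ u ∈ I ∧ w ∈ I) ∨ (u ∈ I ∧ w ∈ X) ∨ (u ∈ X ∧ w ∈ I) ∨
        (u ∈ X ∧ w ∈ Y ∧ rk u < rk w) ∨ (u ∈ Y ∧ w ∈ X ∧ rk w < rk u)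
      symm := ⟨by
        rintro u w (h | h | h | h | h)
        · exact Or.inl ⟨h.1.symm, h.2.2, h.2.1⟩
        · exact Or.inr (Or.inr (Or.inl ⟨h.2, h.1⟩))
        · exact Or.inr (Or.inl ⟨h.2, h.1⟩)
        · exact Or.inr (Or.inr (Or.inr (Or.inr ⟨h.2.1, h.1, h.2.2⟩)))
        · exact Or.inr (Or.inr (Or.inr (Or.inl ⟨h.2.1, h.1, h.2.2⟩)))⟩
      loopless := ⟨by
        rintro u (h | h | h | h | h)
        · exact h.1 rfl
        · exact dIX u h.1 h.2
        · exact dIX u h.2 h.1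
        · exact lt_irrefl _ h.2.2
        · exact lt_irrefl _ h.2.2⟩ }
  have aII : ∀ u w, u ≠ w → u ∈ I → w ∈ I → H.Adj u w := fun u w h h' h'' =>
    Or.inl ⟨h, h', h''⟩
  have aIX : ∀ u w, u ∈ I → w ∈ X → H.Adj u w := fun u w h h' => Or.inr (Or.inl ⟨h, h'⟩)
  have aXI : ∀ u w, u ∈ X → w ∈ I → H.Adj u w := fun u w h h' =>
    Or.inr (Or.inr (Or.inl ⟨h, h'⟩))
  have aXY : ∀ u w, u ∈ X → w ∈ Y → rk u < rk w → H.Adj u w := fun u w h h' h'' =>
    Or.inr (Or.inr (Or.inr (Or.inl ⟨h, h', h''⟩)))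
  have hmem : ∀ u w, H.Adj u w → u ∈ I ∨ u ∈ X ∨ u ∈ Y := by
    rintro u w (h | h | h | h | h)
    · exact Or.inl h.2.1
    · exact Or.inl h.1
    · exact Or.inr (Or.inl h.1)
    · exact Or.inr (Or.inl h.1)
    · exact Or.inr (Or.inr h.1)
  have nXX : ∀ u w, H.Adj u w → u ∈ X → w ∈ X → False := by
    rintro u w (h | h | h | h | h) hu hw
    · exact dIX u h.2.1 hu
    · exact dIX u h.1 hu
    · exact dIX w h.2 hw
    · exact dXY w hw h.2.1
    · exact dXY u hu h.1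
  have nY : ∀ u w, H.Adj u w → u ∈ Y → w ∈ X := by
    rintro u w (h | h | h | h | h) hu
    · exact (dIY u h.2.1 hu).elim
    · exact (dIY u h.1 hu).elim
    · exact (dXY u h.1 hu).elim
    · exact (dXY u h.1 hu).elim
    · exact h.2.1
  have hH : ∀ x y, H.Adj x y → lab x ≠ lab y := by
    rintro x y (h | h | h | h | h) he
    · exact h.1 (h2 x h.2.1 y he)
    · exact dIX x h.1 ((h2 x h.1 y he).symm ▸ h.2)
    · exact dIX y h.2 ((h2 y h.2 x he.symm).symm ▸ h.1)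
    · exact h1 x h.1 y h.2.1 h.2.2 he
    · exact h1 y h.2.1 x h.1 h.2.2 he.symm
  have ht : ∀ x y z, H.Adj x y → H.Adj x z → H.Adj y z →
      hull 𝒞 {v x, v y} ∩ hull 𝒞 {v x, v z} ∩ hull 𝒞 {v y, v z} = ∅ := by
    intro x y z hxy hxz hyz
    have hxY : x ∉ Y := fun h => nXX y z hyz (nY x y hxy h) (nY x z hxz h)
    have hyY : y ∉ Y := fun h => nXX x z hxz (nY y x hxy.symm h) (nY y z hyz h)
    have hzY : z ∉ Y := fun h => nXX x y hxy (nY z x hxz.symm h) (nY z y hyz.symm h)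
    rcases hmem x y hxy with hx | hx | hx
    · rcases hmem y z hyz with hy | hy | hy
      · rcases hmem z x hxz.symm with hz | hz | hz
        · exact h3 x hx y hy z hz hxy.ne hxz.ne hyz.ne
        · have h := h4 z hz x hx y hy hxy.ne
          rw [Set.pair_comm (v z) (v x), Set.pair_comm (v z) (v y)] at h
          rw [Set.eq_empty_iff_forall_notMem] at h ⊢
          rintro w ⟨⟨w1, w2⟩, w3⟩
          exact h w ⟨⟨w2, w3⟩, w1⟩
        · exact absurd hz hzY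
      · rcases hmem z x hxz.symm with hz | hz | hz
        · have h := h4 y hy x hx z hz hxz.ne
          rw [Set.pair_comm (v y) (v x)] at h
          rw [Set.eq_empty_iff_forall_notMem] at h ⊢
          rintro w ⟨⟨w1, w2⟩, w3⟩
          exact h w ⟨⟨w1, w3⟩, w2⟩
        · exact (nXX y z hyz hy hz).elim
        · exact absurd hz hzY
      · exact absurd hy hyY
    · rcases hmem y z hyz with hy | hy | hy
      · rcases hmem z x hxz.symm with hz | hz | hz
        · exact h4 x hx y hy z hz hyz.ne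
        · exact (nXX x z hxz hx hz).elim
        · exact absurd hz hzY
      · exact (nXX x y hxy hx hy).elim
      · exact absurd hy hyY
    · exact absurd hx hxY
  obtain ⟨B, b1, b2, b3⟩ := minor_of_web (web_of_usys hF hU H hH ht)
  refine clique_of_pairs b1 b2 b3 f g ?_ h6 ?_ hh
  · intro i
    rcases h5 i with h | h
    · exact Or.inl h.1
    · exact Or.inr (aXY _ _ h.1 h.2.1 h.2.2)
  · intro i j hij
    rcases h5 i with hi | hi
    · rcases h5 j with hj | hj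
      · exact Or.inl (aII _ _ (h6 i j hij).1 hi.2 hj.2)
      · exact Or.inl (aIX _ _ hi.2 hj.1)
    · rcases h5 j with hj | hj
      · exact Or.inl (aXI _ _ hi.1 hj.2)
      · rcases le_total (rk (g i)) (rk (g j)) with h | h
        · exact Or.inr (Or.inl (aXY _ _ hi.1 hj.2.1 (lt_of_lt_of_le hi.2.2 h)))
        · exact Or.inr (Or.inr (aXY _ _ hj.1 hi.2.1 (lt_of_lt_of_le hj.2.2 h)))

end Pool.Agent.RT16
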