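import Mathlib

/-!
# RT16/Sep: separation of two pairs of index vertices

For every unit `l` there are disjoint `S l, T l ⊆ supp l` with: `Q u (S l)` for `u ∈ {x, y}` in the unit `l`, `Q u (T l)` for
`u ∈ {z, w}` in the unit `l`. (At most one of `x`, `y` and at most one of `z`, `w`, up to equality, lies in the unit: `hsep` if both
kinds occur, `supp l` and `∅` otherwise.) Then take the unions.
-/

set_option autoImplicit false

namespace Pool.Agent.RT16

theorem sep_sets {p : ℕ} {U L : Type} (lab : U → L) (supp : L → Set (Fin p))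
    (hd : ∀ l l', l ≠ l' → Disjoint (supp l) (supp l')) (Q : U → Set (Fin p) → Prop)
    (hmono : ∀ u S T, S ⊆ T → Q u S → Q u T) (hown : ∀ u, Q u (supp (lab u)))
    (hsep : ∀ u w, u ≠ w → lab u = lab w → ∃ S T : Set (Fin p), S ⊆ supp (lab u) ∧
      T ⊆ supp (lab u) ∧ Disjoint S T ∧ Q u S ∧ Q w T) (x y z w : U)
    (hxy : lab x ≠ lab y) (hzw : lab z ≠ lab w ∨ z = w) (h1 : x ≠ z) (h2 : x ≠ w) (h3 : y ≠ z)
    (h4 : y ≠ w) : ∃ S T : Set (Fin p), Disjoint S T ∧ Q x S ∧ Q y S ∧ Q z T ∧ Q w T := by
  classical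
  have key : ∀ l : L, ∃ S T : Set (Fin p), S ⊆ supp l ∧ T ⊆ supp l ∧ Disjoint S T ∧
      (∀ u, (u = x ∨ u = y) → lab u = l → Q u S) ∧
      (∀ u, (u = z ∨ u = w) → lab u = l → Q u T) := by
    intro l
    by_cases hA : ∃ u, (u = x ∨ u = y) ∧ lab u = l
    · obtain ⟨u0, hu0, hl0⟩ := hA
      by_cases hB : ∃ v, (v = z ∨ v = w) ∧ lab v = l
      · obtain ⟨v0, hv0, hm0⟩ := hB
        have hne : u0 ≠ v0 := by
          rcases hu0 with h | h <;> rcases hv0 with h' | h' <;> rw [h, h'] <;> assumption
        obtain ⟨S, T, hS, hT, hST, hQ1, hQ2⟩ := hsep u0 v0 hne (hl0.trans hm0.symm)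
        rw [hl0] at hS hT
        refine ⟨S, T, hS, hT, hST, ?_, ?_⟩
        · intro u hu hul
          have he : u = u0 := by
            rcases hu with h | h <;> rcases hu0 with h' | h'
            · rw [h, h']
            · exact absurd (by rw [← h, ← h', hul, hl0]) hxy
            · exact absurd (by rw [← h, ← h', hul, hl0]) hxy
            · rw [h, h']
          rw [he]
          exact hQ1
        · intro v hv hvl
          have he : v = v0 := by
            rcases hzw with hzw | hzw
            · rcases hv with h | h <;> rcases hv0 with h' | h'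
              · rw [h, h']
              · exact absurd (by rw [← h, ← h', hvl, hm0]) hzw
              · exact absurd (by rw [← h, ← h', hvl, hm0]) hzw
              · rw [h, h']
            · rcases hv with h | h <;> rcases hv0 with h' | h' <;> simp [h, h', hzw]
          rw [he]
          exact hQ2
      · refine ⟨supp l, ∅, subset_rfl, Set.empty_subset _, disjoint_bot_right, ?_, ?_⟩
        · intro u _ hul
          rw [← hul]
          exact hown u
        · intro v hv hvl
          exact absurd ⟨v, hv, hvl⟩ hB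
    · refine ⟨∅, supp l, Set.empty_subset _, subset_rfl, disjoint_bot_left, ?_, ?_⟩
      · intro u hu hul
        exact absurd ⟨u, hu, hul⟩ hA
      · intro v _ hvl
        rw [← hvl]
        exact hown v
  choose S T hS hT hST hQ1 hQ2 using key
  refine ⟨⋃ l, S l, ⋃ l, T l, ?_, ?_, ?_, ?_, ?_⟩
  · rw [Set.disjoint_iUnion_left]
    intro l
    rw [Set.disjoint_iUnion_right]
    intro l'
    by_cases hll : l = l'
    · rw [← hll]
      exact hST l
    · exact (hd l l' hll).mono (hS l) (hT l')
  · exact hmono x _ _ (Set.subset_iUnion S (lab x)) (hQ1 (lab x) x (Or.inl rfl) rfl)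
  · exact hmono y _ _ (Set.subset_iUnion S (lab y)) (hQ1 (lab y) y (Or.inr rfl) rfl)
  · exact hmono z _ _ (Set.subset_iUnion T (lab z)) (hQ2 (lab z) z (Or.inl rfl) rfl)
  · exact hmono w _ _ (Set.subset_iUnion T (lab w)) (hQ2 (lab w) w (Or.inr rfl) rfl)

end Pool.Agent.RT16
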