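import Pool.Agent.RT16.Sep
import Pool.Agent.RT16.FamR

/-!
# RT16/WebU: a graph without edges inside units and with clean triangles gives a web

`sep_sets` with `Q u S = (v u ∈ hull 𝒞 (a '' S))` (`hull_mono`); `hull 𝒞 {v x, v y} ⊆ hull 𝒞 (a '' S)` by `hull_le`, and `Fam.disj`.
`notMem`: the case `z = w` of `sep_sets`. `conn`, `conn₂`: `IsConvexity.conn`, `IsConvexity.inter`, `hull_mem`. `inj`: `USys.sep` for the
same unit, `USys.own` and `USys.disj` for different units.
-/

set_option autoImplicit false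

namespace Pool.Agent.RT16

open Pool.Agent.HR54

theorem web_of_usys {V U L : Type} [Finite V] {G : SimpleGraph V} {p : ℕ} {𝒞 : Set (Set V)}
    {a : Fin p → V} (hF : Fam G 𝒞 a) {lab : U → L} {supp : L → Set (Fin p)} {v : U → V}
    (hU : USys 𝒞 a lab supp v) (H : SimpleGraph U) (hH : ∀ x y, H.Adj x y → lab x ≠ lab y)
    (ht : ∀ x y z, H.Adj x y → H.Adj x z → H.Adj y z →
      hull 𝒞 {v x, v y} ∩ hull 𝒞 {v x, v z} ∩ hull 𝒞 {v y, v z} = ∅) :
    Web G H v (fun x y => hull 𝒞 {v x, v y}) := by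
  have hpair : ∀ (x y : U) (S : Set (Fin p)), v x ∈ hull 𝒞 (a '' S) → v y ∈ hull 𝒞 (a '' S) →
      hull 𝒞 {v x, v y} ⊆ hull 𝒞 (a '' S) := by
    intro x y S hx hy
    apply hull_le hF.conv
    intro t ht'
    rcases ht' with rfl | ht'
    · exact hx
    · rw [Set.mem_singleton_iff] at ht'
      rw [ht']
      exact hy
  have hmono : ∀ (u : U) (S T : Set (Fin p)), S ⊆ T → v u ∈ hull 𝒞 (a '' S) →
      v u ∈ hull 𝒞 (a '' T) := fun u S T h hu => hull_mono 𝒞 (Set.image_mono h) hu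
  refine ⟨?_, ?_, ?_, ?_, ?_, ?_, ?_, ?_⟩
  · intro x y
    show hull 𝒞 {v x, v y} = hull 𝒞 {v y, v x}
    rw [Set.pair_comm]
  · intro x y
    exact subset_hull 𝒞 _ (Set.mem_insert _ _)
  · intro x y
    exact hF.conv.conn _ (hull_mem hF.conv _)
  · intro x y z
    exact hF.conv.conn _ (hF.conv.inter _ (hull_mem hF.conv _) _ (hull_mem hF.conv _))
  · intro x y z w hxy hzw h1 h2 h3 h4
    obtain ⟨S, T, hST, hx, hy, hz, hw⟩ := sep_sets lab supp hU.disj
      (fun u S => v u ∈ hull 𝒞 (a '' S)) hmono hU.own hU.sep x y z w (hH x y hxy)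
      (Or.inl (hH z w hzw)) h1 h2 h3 h4
    exact (hF.disj S T hST).mono (hpair x y S hx hy) (hpair z w T hz hw)
  · intro x y z hxy hzx hzy hmem
    obtain ⟨S, T, hST, hx, hy, hz, -⟩ := sep_sets lab supp hU.disj
      (fun u S => v u ∈ hull 𝒞 (a '' S)) hmono hU.own hU.sep x y z z (hH x y hxy)
      (Or.inr rfl) hzx.symm hzx.symm hzy.symm hzy.symm
    exact Set.disjoint_left.1 (hF.disj S T hST) (hpair x y S hx hy hmem) hz
  · intro x y z h1 h2 h3
    exact ht x y z h1 h2 h3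
  · intro u w huw
    by_contra hne
    by_cases hl : lab u = lab w
    · obtain ⟨S, T, -, -, hd, hu, hw⟩ := hU.sep u w hne hl
      rw [huw] at hu
      exact Set.disjoint_left.1 (hF.disj S T hd) hu hw
    · have hu := hU.own u
      have hw := hU.own w
      rw [huw] at hu
      exact Set.disjoint_left.1 (hF.disj _ _ (hU.disj _ _ hl)) hu hw

end Pool.Agent.RT16
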